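import Pool.Agent.X220.LP.Basic

/-!
# Zero-diagonal tridiagonal bases for a bipartite Leonard pair

Question Q2 is whether for a bipartite Leonard pair `A`, `A*` of diameter `d ≥ 3` every admissible basis (in
which both matrices are tridiagonal with zero diagonal) is an eigenbasis of `q A A* - q⁻¹ A* A` or of
`q⁻¹ A A* - q A* A`.  The answer is no, already for `d = 3`, over the complex numbers and for `q = 2`:
for

`A = !![0, 21, 0, 0; 1, 0, 320, 0; 0, 5/16, 0, 1; 0, 0, 336, 0]`,
`A* = !![0, -84, 0, 0; 4, 0, -320, 0; 0, 5/16, 0, -1/4; 0, 0, 84, 0]`,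

a bipartite Leonard pair with eigenvalues `21, 4, -4, -21` and `21 i, 4 i, -4 i, -21 i`, the standard basis is
admissible, but it is an eigenbasis of neither map.

In general, for `d = 3`, let `T` be an invertible map with `T A = - A T`, `T A* = - A* T` (unique up to a
scalar).  It has two eigenspaces of dimension two, and the first vector of an admissible basis can be any
solution of `A* u = λ A u` in one of them, the last vector any such solution in the other one; this gives
eight admissible bases up to scalars, and only four of them are eigenbases of one of the two maps.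
-/

set_option autoImplicit false

namespace Pool.Agent.Results.MP_54d771_al.AdmissibleBasis

open Pool.Agent.X220.LP

section defs

variable {K : Type} [Field K] {V : Type} [AddCommGroup V] [Module K V]

/-- `q ^ 2 + q ^ (- 2) + 1` is the value of the ratios `(θ_{i-2} - θ_{i+1}) / (θ_{i-1} - θ_i)`. -/
def Ratio {d : ℕ} (q : K) (θ : Fin (d + 1) → K) : Prop :=
  ∀ i j k l : Fin (d + 1), (j : ℕ) = i + 1 → (k : ℕ) = i + 2 → (l : ℕ) = i + 3 →
    θ i - θ l = (q ^ 2 + q⁻¹ ^ 2 + 1) * (θ j - θ k)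

/-- `A`, `B` is a Leonard pair of diameter `d` with `a_i = 0` and `a*_i = 0` for all `i`, and
`q ^ 2 + q ^ (- 2) + 1` is the common value of the ratios of the eigenvalues of `A` and of `B` (in the
standard orderings): there are a basis in which `A` is diagonal and `B` is irreducible tridiagonal with
zero diagonal, and a basis in which `B` is diagonal and `A` is irreducible tridiagonal with zero
diagonal. -/
def BipartitePair (d : ℕ) (q : K) (A B : Module.End K V) : Prop :=
  (∃ v : Module.Basis (Fin (d + 1)) K V, (LinearMap.toMatrix v v A).IsDiag ∧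
    IrredTridiagonal (LinearMap.toMatrix v v B) ∧ (∀ i, LinearMap.toMatrix v v B i i = 0) ∧
    Ratio q fun i => LinearMap.toMatrix v v A i i) ∧
  ∃ v : Module.Basis (Fin (d + 1)) K V, (LinearMap.toMatrix v v B).IsDiag ∧
    IrredTridiagonal (LinearMap.toMatrix v v A) ∧ (∀ i, LinearMap.toMatrix v v A i i = 0) ∧
    Ratio q fun i => LinearMap.toMatrix v v B i i

/-- tridiagonal with zero diagonal -/
def ZeroDiagTridiagonal {n : ℕ} (M : Matrix (Fin n) (Fin n) K) : Prop :=
  (∀ i j : Fin n, (i : ℕ) + 1 < j ∨ (j : ℕ) + 1 < i → M i j = 0) ∧ ∀ i, M i i = 0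

/-- The basis `v` is admissible for `A`, `B`. -/
def Admissible {d : ℕ} (A B : Module.End K V) (v : Module.Basis (Fin (d + 1)) K V) : Prop :=
  ZeroDiagTridiagonal (LinearMap.toMatrix v v A) ∧ ZeroDiagTridiagonal (LinearMap.toMatrix v v B)

/-- All vectors of the basis `v` are eigenvectors of `T`. -/
def IsEigenbasis {d : ℕ} (T : Module.End K V) (v : Module.Basis (Fin (d + 1)) K V) : Prop :=
  ∀ i, ∃ μ : K, T (v i) = μ • v i

end defs

/-- The question Q2 (for `q` in `K`). -/
def Question : Prop :=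
  ∀ (K : Type) [Field K] (V : Type) [AddCommGroup V] [Module K V] (d : ℕ) (q : K)
    (A B : Module.End K V), 3 ≤ d → q ≠ 0 → BipartitePair d q A B →
    ∀ v : Module.Basis (Fin (d + 1)) K V, Admissible A B v →
      IsEigenbasis (q • (A * B) - q⁻¹ • (B * A)) v ∨ IsEigenbasis (q⁻¹ • (A * B) - q • (B * A)) v

/-! ### Complex matrices with rational real and imaginary parts -/

/-- 4 × 4 rational matrices -/
abbrev M4 : Type := Matrix (Fin 4) (Fin 4) ℚ

/-- the complex matrix `R + i S` -/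
noncomputable def cM (R S : M4) : Matrix (Fin 4) (Fin 4) ℂ :=
  fun i j => (R i j : ℂ) + Complex.I * (S i j : ℂ)

theorem cM_mul (R S R' S' : M4) : cM R S * cM R' S' = cM (R * R' - S * S') (R * S' + S * R') := by
  ext i j
  simp only [cM, Matrix.mul_apply, Matrix.sub_apply, Matrix.add_apply, Rat.cast_sub, Rat.cast_add,
    Rat.cast_sum, Rat.cast_mul]
  rw [← Finset.sum_sub_distrib, ← Finset.sum_add_distrib, Finset.mul_sum, ← Finset.sum_add_distrib]
  refine Finset.sum_congr rfl fun k _ => ?_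
  have := Complex.I_mul_I
  linear_combination ((S i k : ℂ) * (S' k j : ℂ)) * this

theorem cM_one : cM 1 0 = 1 := by
  ext i j
  simp only [cM, Matrix.one_apply, Matrix.zero_apply]
  split_ifs <;> simp

theorem cM_apply_eq_zero {R S : M4} {i j : Fin 4} (hR : R i j = 0) (hS : S i j = 0) :
    cM R S i j = 0 := by
  unfold cM
  rw [hR, hS]
  simp

theorem cM_apply_ne_zero {R S : M4} {i j : Fin 4} (h : ¬ (R i j = 0 ∧ S i j = 0)) :
    cM R S i j ≠ 0 := by
  intro h0
  apply h
  unfold cM at h0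
  have h1 := congrArg Complex.re h0
  have h2 := congrArg Complex.im h0
  simp at h1 h2
  exact ⟨h1, h2⟩

/-- a decidable form of being diagonal -/
def qDiag (R : M4) : Prop := ∀ i j, i ≠ j → R i j = 0

/-- a decidable form of being irreducible tridiagonal with zero diagonal -/
def qTri (R S : M4) : Prop :=
  (∀ i j : Fin 4, ((i : ℕ) + 1 < j ∨ (j : ℕ) + 1 < i ∨ i = j) → R i j = 0 ∧ S i j = 0) ∧
  ∀ i j : Fin 4, ((i : ℕ) + 1 = j ∨ (j : ℕ) + 1 = i) → ¬ (R i j = 0 ∧ S i j = 0)

instance (R : M4) : Decidable (qDiag R) := inferInstanceAs (Decidable (∀ i j, i ≠ j → R i j = 0))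
instance (R S : M4) : Decidable (qTri R S) := inferInstanceAs (Decidable (_ ∧ _))

theorem isDiag_cM {R S : M4} (h : qDiag R ∧ qDiag S) : (cM R S).IsDiag :=
  fun i j hij => cM_apply_eq_zero (h.1 i j hij) (h.2 i j hij)

theorem tri_cM {R S : M4} (h : qTri R S) : IrredTridiagonal (cM R S) ∧ ∀ i, cM R S i i = 0 := by
  refine ⟨⟨fun i j hij => ?_, fun i j hij => cM_apply_ne_zero (h.2 i j hij)⟩, fun i => ?_⟩
  · have := h.1 i j (by tauto)
    exact cM_apply_eq_zero this.1 this.2
  · have := h.1 i i (by tauto)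
    exact cM_apply_eq_zero this.1 this.2

/-! ### The pair -/

def qA : M4 := !![0, 21, 0, 0; 1, 0, 320, 0; 0, 5/16, 0, 1; 0, 0, 336, 0]
def qB : M4 := !![0, -84, 0, 0; 4, 0, -320, 0; 0, 5/16, 0, -1/4; 0, 0, 84, 0]

/-- `A` -/
noncomputable def A : Module.End ℂ (Fin 4 → ℂ) := Matrix.toLin' (cM qA 0)
/-- `B = A*` -/
noncomputable def B : Module.End ℂ (Fin 4 → ℂ) := Matrix.toLin' (cM qB 0)

/-- eigenvectors of `A` -/
def PA : M4 := !![1, -16, 16, -1; 1, -64/21, -64/21, 1; 1/16, 1/84, -1/84, -1/16; 1, 1, 1, 1]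
def PA' : M4 := !![1/170, 21/170, 672/85, 32/85; -21/680, -21/170, 42/85, 21/170;
  21/680, -21/170, -42/85, 21/170; -1/170, 21/170, -672/85, 32/85]

/-- eigenvectors of `B`, real and imaginary parts -/
def RB : M4 := !![0, 0, 0, 0; -16, 4/21, 4/21, -16; 0, 0, 0, 0; 1, 1, 1, 1]
def SB : M4 := !![-64, 4, -4, 64; 0, 0, 0, 0; 1/4, 1/21, -1/21, -1/4; 0, 0, 0, 0]
def RB' : M4 := !![0, -21/680, 0, 1/170; 0, 21/680, 0, 42/85; 0, 21/680, 0, 42/85;
  0, -21/680, 0, 1/170]
def SB' : M4 := !![1/170, 0, -42/85, 0; -21/680, 0, -672/85, 0; 21/680, 0, 672/85, 0;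
  -1/170, 0, 42/85, 0]

theorem cM_mul_one {R S R' S' : M4} (h : R * R' - S * S' = 1 ∧ R * S' + S * R' = 0) :
    cM R S * cM R' S' = 1 := by
  rw [cM_mul, h.1, h.2, cM_one]

theorem hA1 : cM PA 0 * cM PA' 0 = 1 := cM_mul_one (by decide +kernel)
theorem hA2 : cM PA' 0 * cM PA 0 = 1 := cM_mul_one (by decide +kernel)
theorem hB1 : cM RB SB * cM RB' SB' = 1 := cM_mul_one (by decide +kernel)
theorem hB2 : cM RB' SB' * cM RB SB = 1 := cM_mul_one (by decide +kernel)

theorem ratio_of {R S : M4} (h : R 0 0 - R 3 3 = 21 / 4 * (R 1 1 - R 2 2) ∧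
    S 0 0 - S 3 3 = 21 / 4 * (S 1 1 - S 2 2)) : Ratio (d := 3) (2 : ℂ) fun i => cM R S i i := by
  intro i j k l hj hk hl
  have hi : i = 0 := Fin.ext (by have := l.isLt; show (i : ℕ) = 0; omega)
  subst hi
  have hj' : j = 1 := Fin.ext hj
  have hk' : k = 2 := Fin.ext hk
  have hl' : l = 3 := Fin.ext hl
  subst hj' hk' hl'
  have h1 : ((R 0 0 : ℚ) : ℂ) - R 3 3 = 21 / 4 * (R 1 1 - R 2 2) := by
    have := congrArg (fun x : ℚ => (x : ℂ)) h.1
    push_cast at this
    exact this
  have h2 : ((S 0 0 : ℚ) : ℂ) - S 3 3 = 21 / 4 * (S 1 1 - S 2 2) := by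
    have := congrArg (fun x : ℚ => (x : ℂ)) h.2
    push_cast at this
    exact this
  show cM R S 0 0 - cM R S 3 3 = ((2 : ℂ) ^ 2 + (2 : ℂ)⁻¹ ^ 2 + 1) * (cM R S 1 1 - cM R S 2 2)
  unfold cM
  linear_combination h1 + Complex.I * h2

theorem pair : BipartitePair 3 (2 : ℂ) A B := by
  constructor
  · refine ⟨colBasis _ _ hA1 hA2, ?_⟩
    have e1 : LinearMap.toMatrix (colBasis _ _ hA1 hA2) (colBasis _ _ hA1 hA2) A =
        cM (PA' * qA * PA) 0 := by
      unfold A
      rw [toMatrix_colBasis, cM_mul, cM_mul]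
      congr 1 <;> decide +kernel
    have e2 : LinearMap.toMatrix (colBasis _ _ hA1 hA2) (colBasis _ _ hA1 hA2) B =
        cM (PA' * qB * PA) 0 := by
      unfold B
      rw [toMatrix_colBasis, cM_mul, cM_mul]
      congr 1 <;> decide +kernel
    rw [e1, e2]
    exact ⟨isDiag_cM (by decide +kernel), (tri_cM (by decide +kernel)).1,
      (tri_cM (by decide +kernel)).2, ratio_of (by decide +kernel)⟩
  · refine ⟨colBasis _ _ hB1 hB2, ?_⟩
    have e1 : LinearMap.toMatrix (colBasis _ _ hB1 hB2) (colBasis _ _ hB1 hB2) A =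
        cM (RB' * qA * RB - SB' * qA * SB) (RB' * qA * SB + SB' * qA * RB) := by
      unfold A
      rw [toMatrix_colBasis, cM_mul, cM_mul]
      congr 1 <;> decide +kernel
    have e2 : LinearMap.toMatrix (colBasis _ _ hB1 hB2) (colBasis _ _ hB1 hB2) B =
        cM (RB' * qB * RB - SB' * qB * SB) (RB' * qB * SB + SB' * qB * RB) := by
      unfold B
      rw [toMatrix_colBasis, cM_mul, cM_mul]
      congr 1 <;> decide +kernel
    rw [e1, e2]
    exact ⟨isDiag_cM (by decide +kernel), (tri_cM (by decide +kernel)).1,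
      (tri_cM (by decide +kernel)).2, ratio_of (by decide +kernel)⟩

theorem cM_smul (r : ℚ) (R : M4) : (r : ℂ) • cM R 0 = cM (r • R) 0 := by
  ext i j
  simp [cM, Matrix.smul_apply]

theorem cM_sub (R S : M4) : cM R 0 - cM S 0 = cM (R - S) 0 := by
  ext i j
  simp [cM, Matrix.sub_apply]

/-- the value of a map given by a matrix at a vector of the standard basis -/
theorem not_eigen {R : M4} {i j : Fin 4} (hij : i ≠ j) (h : R i j ≠ 0) :
    ¬ ∃ μ : ℂ, Matrix.toLin' (cM R 0) (Pi.basisFun ℂ (Fin 4) j) = μ • Pi.basisFun ℂ (Fin 4) j := by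
  rintro ⟨μ, hμ⟩
  have h1 := congrFun hμ i
  rw [Matrix.toLin'_apply, Pi.basisFun_apply, Matrix.mulVec_single_one, Pi.smul_apply,
    Pi.single_eq_of_ne hij, smul_zero] at h1
  exact cM_apply_ne_zero (R := R) (S := 0) (i := i) (j := j) (fun h' => h h'.1) h1

/-- **The answer to Q2 is no.** -/
theorem result : ¬ Question := by
  intro h
  have hadm : Admissible A B (Pi.basisFun ℂ (Fin (3 + 1))) := by
    have e : ∀ M : M4, LinearMap.toMatrix (Pi.basisFun ℂ (Fin 4)) (Pi.basisFun ℂ (Fin 4))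
        (Matrix.toLin' (cM M 0)) = cM M 0 := by
      intro M
      rw [LinearMap.toMatrix_eq_toMatrix', LinearMap.toMatrix'_toLin']
    have eA := tri_cM (R := qA) (S := 0) (by decide +kernel)
    have eB := tri_cM (R := qB) (S := 0) (by decide +kernel)
    refine ⟨?_, ?_⟩
    · show ZeroDiagTridiagonal (LinearMap.toMatrix _ _ (Matrix.toLin' (cM qA 0)))
      rw [e]
      exact ⟨eA.1.1, eA.2⟩
    · show ZeroDiagTridiagonal (LinearMap.toMatrix _ _ (Matrix.toLin' (cM qB 0)))
      rw [e]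
      exact ⟨eB.1.1, eB.2⟩
  have hmul : ∀ M N : M4, (Matrix.toLin' (cM M 0) : Module.End ℂ (Fin 4 → ℂ)) *
      Matrix.toLin' (cM N 0) = Matrix.toLin' (cM (M * N) 0) := by
    intro M N
    refine (Matrix.toLin'_mul (cM M 0) (cM N 0)).symm.trans ?_
    rw [cM_mul]
    congr 2 <;> simp
  rcases h ℂ (Fin 4 → ℂ) 3 2 A B le_rfl two_ne_zero pair _ hadm with h1 | h1
  · have e : (2 : ℂ) • (A * B) - (2 : ℂ)⁻¹ • (B * A) =
        Matrix.toLin' (cM ((2 : ℚ) • (qA * qB) - (1 / 2 : ℚ) • (qB * qA)) 0) := by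
      unfold A B
      rw [hmul, hmul, ← cM_sub, ← cM_smul, ← cM_smul, map_sub, map_smul, map_smul]
      norm_num
    rw [e] at h1
    exact not_eigen (i := 2) (j := 0) (by decide) (by decide +kernel) (h1 0)
  · have e : (2 : ℂ)⁻¹ • (A * B) - (2 : ℂ) • (B * A) =
        Matrix.toLin' (cM ((1 / 2 : ℚ) • (qA * qB) - (2 : ℚ) • (qB * qA)) 0) := by
      unfold A B
      rw [hmul, hmul, ← cM_sub, ← cM_smul, ← cM_smul, map_sub, map_smul, map_smul]
      norm_num
    rw [e] at h1
    exact not_eigen (i := 0) (j := 2) (by decide) (by decide +kernel) (h1 2)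

end Pool.Agent.Results.MP_54d771_al.AdmissibleBasis
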